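import Pool.Agent.W106.CW.Main

set_option autoImplicit false
open Classical

namespace Pool.Agent.W106.CW

/-- final assembly -/
theorem fin (hs : Swap) (hc : Cover) (hv : VarIneq) (hd : DerU) (hM : MainAbs) :
    ∀ (V : Type) [Fintype V] (G : SimpleGraph V) (t : ℝ), 0 < t →
      (∑ v : V, t / (1 + ((G.degree v : ℝ) + 1) * t)) ≤
        (∑ I ∈ (Finset.univ : Finset (Finset V)).filter
              (fun I : Finset V => G.IsIndepSet (↑I : Set V)),
            ((Finset.card I : ℕ) : ℝ) * t ^ (Finset.card I)) /
        (∑ I ∈ (Finset.univ : Finset (Finset V)).filter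
              (fun I : Finset V => G.IsIndepSet (↑I : Set V)),
            t ^ (Finset.card I)) := by
  intro V _ G t ht
  have hx : ∀ v : V, 0 < (fun _ : V => t) v := fun _ => ht
  have h1 := hM V (cn G) (fun x v => uu G x v) (fun v => by simp [cn])
    (fun x hx v => ⟨(hc V G x hx v).1, (hc V G x hx v).2.1⟩) (hd V G).1
    (fun x hx v => (hc V G x hx v).2.2)
    (fun x hx ω => ⟨fun v => uu G x v * av G x (sumI ω)
        - av G x (fun I => (if v ∈ free G I then 1 else 0) * sumI ω I),
      fun v => (hd V G).2 x hx ω v, hv V G x hx ω⟩) (fun _ => t) hx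
  have hcn : ∀ v : V, ∑ w ∈ cn G v, (fun _ : V => t) w = ((G.degree v : ℝ) + 1) * t := by
    intro v
    have hcard : (cn G v).card = G.degree v + 1 := by
      have : cn G v = insert v (G.neighborFinset v) := by
        ext w
        simp [cn, SimpleGraph.mem_neighborFinset]
      rw [this, Finset.card_insert_of_notMem (by simp), SimpleGraph.card_neighborFinset_eq_degree]
    simp only [Finset.sum_const, hcard, nsmul_eq_mul]
    push_cast
    ring
  simp only [hcn] at h1
  refine le_trans h1 (le_of_eq ?_)
  -- the mean size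
  have hwt : ∀ I : Finset V, wt (fun _ : V => t) I = t ^ I.card := by
    intro I; simp [wt]
  have hZ : Z G (fun _ : V => t) = ∑ I ∈ ind G, t ^ I.card := by
    simp [Z, hwt]
  have h2 := hs V G (fun _ => t) (fun _ _ => 1)
  have h3 : ∑ v : V, t * uu G (fun _ => t) v
      = (∑ I ∈ ind G, ((I.card : ℕ) : ℝ) * t ^ I.card) / ∑ I ∈ ind G, t ^ I.card := by
    have h4 : ∀ v : V, t * uu G (fun _ => t) v
        = (∑ I ∈ ind G, (if v ∈ free G I then wt (fun _ : V => t) I * t else 0))
          / Z G (fun _ => t) := by
      intro v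
      unfold uu av ex
      rw [mul_div_assoc', Finset.mul_sum]
      congr 1
      apply Finset.sum_congr rfl
      intro I _
      by_cases hvI : v ∈ free G I
      · simp only [hvI, if_true]
        ring
      · simp only [hvI, if_false]
        ring
    simp only [h4]
    rw [← Finset.sum_div, hZ]
    congr 1
    rw [Finset.sum_comm]
    have h5 : ∑ I ∈ ind G, ∑ v : V, (if v ∈ free G I then wt (fun _ : V => t) I * t else 0)
        = ∑ I ∈ ind G, ∑ v ∈ free G I, wt (fun _ : V => t) I * (t * 1) := by
      apply Finset.sum_congr rfl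
      intro I _
      rw [← Finset.sum_filter]
      simp
    rw [h5, ← h2]
    apply Finset.sum_congr rfl
    intro I _
    simp [hwt, mul_comm]
  exact h3

end Pool.Agent.W106.CW
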