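import Pool.Agent.W106.CW.Stm

set_option autoImplicit false
set_option linter.unusedSectionVars false
open Classical Filter Topology

namespace Pool.Agent.W106.CW

/-- tangent line inequality from monotone derivative -/
lemma tangent_le {F M : ℝ → ℝ} (hd : ∀ c, 0 < c → c < 1 → HasDerivAt F (M c) c)
    (hm : MonotoneOn M (Set.Ioo 0 1)) {c t : ℝ} (hc0 : 0 < c) (hc1 : c < 1)
    (ht0 : 0 < t) (ht1 : t < 1) : F c + M c * (t - c) ≤ F t := by
  rcases lt_trichotomy c t with h | h | h
  · obtain ⟨ξ, hξ, hξ2⟩ := exists_hasDerivAt_eq_slope F M h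
      (fun y hy => (hd y (by linarith [hy.1]) (by linarith [hy.2])).continuousAt.continuousWithinAt)
      (fun y hy => hd y (by linarith [hy.1]) (by linarith [hy.2]))
    have h1 : M c ≤ M ξ := hm ⟨hc0, hc1⟩ ⟨by linarith [hξ.1], by linarith [hξ.2]⟩ hξ.1.le
    have h2 : F t - F c = M ξ * (t - c) := by
      rw [hξ2]; field_simp [sub_ne_zero.mpr h.ne']
    nlinarith [mul_le_mul_of_nonneg_right h1 (sub_nonneg.mpr h.le)]
  · subst h; simp
  · obtain ⟨ξ, hξ, hξ2⟩ := exists_hasDerivAt_eq_slope F M h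
      (fun y hy => (hd y (by linarith [hy.1]) (by linarith [hy.2])).continuousAt.continuousWithinAt)
      (fun y hy => hd y (by linarith [hy.1]) (by linarith [hy.2]))
    have h1 : M ξ ≤ M c := hm ⟨by linarith [hξ.1], by linarith [hξ.2]⟩ ⟨hc0, hc1⟩ hξ.2.le
    have h2 : F c - F t = M ξ * (c - t) := by
      rw [hξ2]; field_simp [sub_ne_zero.mpr h.ne']
    nlinarith [mul_le_mul_of_nonneg_right h1 (sub_nonneg.mpr h.le)]

section
variable {V : Type} [Fintype V]

/-- `1/(1+x(N v))` -/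
noncomputable def cc (N : V → Finset V) (x : V → ℝ) (v : V) : ℝ := 1 / (1 + ∑ w ∈ N v, x w)

lemma cc_pos {N : V → Finset V} {x : V → ℝ} (hN : ∀ v, v ∈ N v) (hx : ∀ v, 0 < x v) (v : V) :
    0 < cc N x v ∧ cc N x v < 1 := by
  have h : 0 < ∑ w ∈ N v, x w := Finset.sum_pos (fun w _ => hx w) ⟨v, hN v⟩
  unfold cc
  refine ⟨by positivity, ?_⟩
  rw [div_lt_one (by linarith)]
  linarith

lemma cc_eq {N : V → Finset V} {x : V → ℝ} (hN : ∀ v, v ∈ N v) (hx : ∀ v, 0 < x v) (v : V) :
    ∑ w ∈ N v, x w = 1 / cc N x v - 1 := by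
  have h : 0 < ∑ w ∈ N v, x w := Finset.sum_pos (fun w _ => hx w) ⟨v, hN v⟩
  unfold cc
  field_simp
  ring

/-- the functional -/
noncomputable def HH (N : V → Finset V) (u : (V → ℝ) → V → ℝ) (f : ℝ → ℝ → ℝ) (s : ℝ)
    (x : V → ℝ) : ℝ := ∑ v, x v * ∫ t in (cc N x v)..(u x v), f s t

/-- the path -/
noncomputable def pth (x ω : V → ℝ) (τ : ℝ) : V → ℝ := fun z => x z * Real.exp (-(ω z * τ))

lemma pth_zero (x ω : V → ℝ) : pth x ω 0 = x := by
  funext z; simp [pth]

lemma pth_pos {x : V → ℝ} (ω : V → ℝ) (hx : ∀ v, 0 < x v) (τ : ℝ) (v : V) : 0 < pth x ω τ v :=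
  mul_pos (hx v) (Real.exp_pos _)

lemma pth_deriv (x ω : V → ℝ) (v : V) : HasDerivAt (fun τ => pth x ω τ v) (-(ω v * x v)) 0 := by
  unfold pth
  have h1 : HasDerivAt (fun τ : ℝ => -(ω v * τ)) (-(ω v)) 0 := by
    have h0 := ((hasDerivAt_id' (0:ℝ)).const_mul (ω v)).fun_neg
    simpa using h0
  have h2 := (h1.exp).const_mul (x v)
  refine h2.congr_deriv ?_
  simp
  ring

lemma cc_deriv {N : V → Finset V} {x : V → ℝ} (ω : V → ℝ) (hN : ∀ v, v ∈ N v)
    (hx : ∀ v, 0 < x v) (v : V) :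
    HasDerivAt (fun τ => cc N (pth x ω τ) v) (cc N x v ^ 2 * ∑ w ∈ N v, x w * ω w) 0 := by
  have h1 : HasDerivAt (fun τ => 1 + ∑ w ∈ N v, pth x ω τ w) (∑ w ∈ N v, -(ω w * x w)) 0 := by
    have := (HasDerivAt.fun_sum (u := N v) (fun w _ => pth_deriv x ω w))
    exact this.const_add 1
  have hpos : (0:ℝ) < 1 + ∑ w ∈ N v, pth x ω 0 w := by
    have : 0 < ∑ w ∈ N v, pth x ω 0 w :=
      Finset.sum_pos (fun w _ => pth_pos ω hx 0 w) ⟨v, hN v⟩
    linarith
  have h2 := h1.fun_inv hpos.ne'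
  have h3 : (fun τ => cc N (pth x ω τ) v) = fun τ => (1 + ∑ w ∈ N v, pth x ω τ w)⁻¹ := by
    funext τ; simp [cc]
  rw [h3]
  refine h2.congr_deriv ?_
  rw [pth_zero]
  unfold cc
  rw [Finset.sum_neg_distrib]
  have : ∑ w ∈ N v, ω w * x w = ∑ w ∈ N v, x w * ω w :=
    Finset.sum_congr rfl fun w _ => mul_comm _ _
  rw [this]
  rw [pth_zero] at hpos
  field_simp

/-- Step 1: the derivative of the functional along the path is nonpositive. -/
lemma path_deriv (hP : ParInt) (hG : GIneq) {f m : ℝ → ℝ → ℝ} (hf : GoodF f m)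
    {N : V → Finset V} {u : (V → ℝ) → V → ℝ} (hN : ∀ v, v ∈ N v)
    (hu : ∀ x : V → ℝ, (∀ v, 0 < x v) → ∀ v, 0 < u x v ∧ u x v < 1)
    (hcov : ∀ x : V → ℝ, (∀ v, 0 < x v) → ∀ v, 1 ≤ u x v + ∑ w ∈ N v, x w * u x w)
    (hder : ∀ x : V → ℝ, (∀ v, 0 < x v) → ∀ ω : V → ℝ, ∃ ud : V → ℝ,
      (∀ v, HasDerivAt (fun τ : ℝ => u (fun z => x z * Real.exp (-(ω z * τ))) v) (ud v) 0) ∧
      ∑ v, ω v * x v * ud v ≤ ∑ v, x v * u x v * (1 - u x v) * ω v ^ 2)
    {s : ℝ} (hs : 0 ≤ s) {x : V → ℝ} (hx : ∀ v, 0 < x v) :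
    ∃ D : ℝ, D ≤ 0 ∧
      HasDerivAt (fun τ => HH N u f (s + τ) (pth x (fun v => f s (u x v)) τ)) D 0 := by
  set ω : V → ℝ := fun v => f s (u x v) with hω
  obtain ⟨ud, hud, hineq⟩ := hder x hx ω
  set c : V → ℝ := fun v => cc N x v with hc
  set U : V → ℝ := fun v => u x v with hU
  have hc01 : ∀ v, 0 < c v ∧ c v < 1 := fun v => cc_pos hN hx v
  have hu01 : ∀ v, 0 < U v ∧ U v < 1 := fun v => hu x hx v
  set g : ℝ → ℝ → ℝ := fun s t => t * f s t * (2 * f s t - (2 - t) * m s t) with hg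
  have hgc : ContinuousOn (fun p : ℝ × ℝ => g p.1 p.2) (Set.univ ×ˢ Set.Ioo 0 1) := by
    have h2 : ContinuousOn (fun p : ℝ × ℝ => p.2) (Set.univ ×ˢ Set.Ioo (0:ℝ) 1) :=
      continuous_snd.continuousOn
    exact (h2.mul hf.contf).mul ((continuousOn_const.mul hf.contf).sub
      ((continuousOn_const.sub h2).mul hf.contm))
  set S : V → ℝ := fun v => ∑ w ∈ N v, x w * ω w with hS
  have hI : ∀ v, HasDerivAt
      (fun τ => ∫ t in (cc N (pth x ω τ) v)..(u (pth x ω τ) v), f (s + τ) t)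
      (f s (U v) * ud v - f s (c v) * (c v ^ 2 * S v) + ∫ t in (c v)..(U v), g s t) 0 := by
    intro v
    have h1 := hP f g (fun s t ht0 ht1 => hf.ders s t ht0 ht1) hf.contf hgc s
      (fun τ => cc N (pth x ω τ) v) (fun τ => u (pth x ω τ) v) (c v ^ 2 * S v) (ud v)
      (cc_deriv ω hN hx v) (hud v)
    simp only [pth_zero] at h1
    exact h1 (hc01 v).1 (hc01 v).2 (hu01 v).1 (hu01 v).2
  have hT : ∀ v, HasDerivAt
      (fun τ => pth x ω τ v * ∫ t in (cc N (pth x ω τ) v)..(u (pth x ω τ) v), f (s + τ) t)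
      (-(ω v * x v) * (∫ t in (c v)..(U v), f s t) +
        x v * (f s (U v) * ud v - f s (c v) * (c v ^ 2 * S v) + ∫ t in (c v)..(U v), g s t)) 0 := by
    intro v
    have h1 := (pth_deriv x ω v).fun_mul (hI v)
    simp only [pth_zero, add_zero] at h1
    exact h1
  refine ⟨∑ v, (-(ω v * x v) * (∫ t in (c v)..(U v), f s t) +
        x v * (f s (U v) * ud v - f s (c v) * (c v ^ 2 * S v) + ∫ t in (c v)..(U v), g s t)),
    ?_, ?_⟩
  · have key : ∀ v, -(ω v * x v) * (∫ t in (c v)..(U v), f s t) +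
        x v * (f s (U v) * ud v - f s (c v) * (c v ^ 2 * S v) + ∫ t in (c v)..(U v), g s t)
        ≤ ω v * x v * ud v - x v * U v * (1 - U v) * ω v ^ 2 := by
      intro v
      have hcv := hc01 v
      have huv := hu01 v
      have hG1 := hG (f s) (m s) (fun y h0 h1 => hf.derc s y h0 h1)
        (by
          have h3 : ContinuousOn (fun y : ℝ => ((s, y) : ℝ × ℝ)) (Set.Ioo 0 1) :=
            (continuous_const.prodMk continuous_id).continuousOn
          exact hf.contm.comp h3 (fun y hy => ⟨trivial, hy⟩))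
        (fun y h0 h1 => le_trans zero_le_one (hf.lb s y hs h0 h1))
        (fun y h0 h1 => hf.mpos s y hs h0 h1) (hf.mono s hs) (U v) (c v) huv.1 huv.2 hcv.1 hcv.2
      -- lower bound for S v
      have hX : ∑ w ∈ N v, x w = 1 / c v - 1 := cc_eq hN hx v
      have hm0 : 0 ≤ m s (c v) := hf.mpos s (c v) hs hcv.1 hcv.2
      have hS1 : ∑ w ∈ N v, x w * (f s (c v) + m s (c v) * (U w - c v)) ≤ S v := by
        apply Finset.sum_le_sum
        intro w _
        exact mul_le_mul_of_nonneg_left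
          (tangent_le (fun y h0 h1 => hf.derc s y h0 h1) (hf.mono s hs) hcv.1 hcv.2
            (hu01 w).1 (hu01 w).2) (hx w).le
      have hS2 : ∑ w ∈ N v, x w * (f s (c v) + m s (c v) * (U w - c v))
          = (f s (c v) - m s (c v) * c v) * ∑ w ∈ N v, x w
            + m s (c v) * ∑ w ∈ N v, x w * U w := by
        rw [Finset.mul_sum, Finset.mul_sum, ← Finset.sum_add_distrib]
        exact Finset.sum_congr rfl fun w _ => by ring
      have hcov' : 1 - U v ≤ ∑ w ∈ N v, x w * U w := by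
        have := hcov x hx v
        linarith
      have hS3 : (1 / c v - 1) * f s (c v) + m s (c v) * (c v - U v) ≤ S v := by
        have h4 := mul_le_mul_of_nonneg_left hcov' hm0
        have h5 : c v * (1 / c v - 1) = 1 - c v := by
          have := hcv.1.ne'
          field_simp
        rw [hS2, hX] at hS1
        have h6 : m s (c v) * c v * (1 / c v - 1) = m s (c v) * (1 - c v) := by
          rw [mul_assoc, h5]
        nlinarith
      have hf0 : 0 ≤ f s (c v) := le_trans zero_le_one (hf.lb s (c v) hs hcv.1 hcv.2)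
      have hS4 : c v * (1 - c v) * f s (c v) ^ 2 - c v ^ 2 * f s (c v) * m s (c v) * (U v - c v)
          ≤ f s (c v) * (c v ^ 2 * S v) := by
        have h7 := mul_le_mul_of_nonneg_left hS3
          (mul_nonneg hf0 (sq_nonneg (c v)))
        have h8 : f s (c v) * c v ^ 2 * ((1 / c v - 1) * f s (c v) + m s (c v) * (c v - U v))
            = c v * (1 - c v) * f s (c v) ^ 2
              - c v ^ 2 * f s (c v) * m s (c v) * (U v - c v) := by
          have := hcv.1.ne'
          field_simp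
          ring
        rw [h8] at h7
        linarith
      have hfin : -(ω v) * (∫ t in (c v)..(U v), f s t) + (f s (U v) * ud v
          - f s (c v) * (c v ^ 2 * S v) + ∫ t in (c v)..(U v), g s t)
          ≤ ω v * ud v - U v * (1 - U v) * ω v ^ 2 := by
        have e1 : f s (U v) = ω v := rfl
        rw [e1] at hG1 ⊢
        have e2 : (∫ t in (c v)..(U v), g s t)
          = ∫ t in (c v)..(U v), t * f s t * (2 * f s t - (2 - t) * m s t) := rfl
        rw [e2]
        linarith
      have := mul_le_mul_of_nonneg_left hfin (hx v).le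
      nlinarith [this]
    calc _ ≤ ∑ v, (ω v * x v * ud v - x v * U v * (1 - U v) * ω v ^ 2) :=
          Finset.sum_le_sum fun v _ => key v
      _ ≤ 0 := by
          rw [Finset.sum_sub_distrib]
          linarith [hineq]
  · unfold HH
    exact HasDerivAt.fun_sum fun v _ => hT v

lemma cc_cont {N : V → Finset V} (hN : ∀ v, v ∈ N v) (v : V) :
    ContinuousOn (fun x : V → ℝ => cc N x v) {x : V → ℝ | ∀ w, 0 < x w} := by
  unfold cc
  apply ContinuousOn.div continuousOn_const
  · exact (continuous_const.add (continuous_finset_sum _ fun w _ => continuous_apply w)).continuousOn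
  · intro x hx
    have h : 0 < ∑ w ∈ N v, x w := Finset.sum_pos (fun w _ => hx w) ⟨v, hN v⟩
    linarith

lemma HH_cont (hC : ParCont) {f m : ℝ → ℝ → ℝ} (hf : GoodF f m)
    {N : V → Finset V} {u : (V → ℝ) → V → ℝ} (hN : ∀ v, v ∈ N v)
    (hu : ∀ x : V → ℝ, (∀ v, 0 < x v) → ∀ v, 0 < u x v ∧ u x v < 1)
    (huc : ∀ v, ContinuousOn (fun x : V → ℝ => u x v) {x : V → ℝ | ∀ w, 0 < x w}) :
    ContinuousOn (fun p : ℝ × (V → ℝ) => HH N u f p.1 p.2)
      {p : ℝ × (V → ℝ) | ∀ w, 0 < p.2 w} := by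
  unfold HH
  apply continuousOn_finset_sum
  intro v _
  apply ContinuousOn.mul
  · exact ((continuous_apply v).comp continuous_snd).continuousOn
  · have h1 := hC f hf.contf
    have h2 : ContinuousOn (fun p : ℝ × (V → ℝ) => ((p.1, cc N p.2 v, u p.2 v) : ℝ × ℝ × ℝ))
        {p : ℝ × (V → ℝ) | ∀ w, 0 < p.2 w} := by
      apply ContinuousOn.prodMk continuous_fst.continuousOn
      apply ContinuousOn.prodMk
      · exact (cc_cont hN v).comp continuous_snd.continuousOn (fun p hp => hp)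
      · exact (huc v).comp continuous_snd.continuousOn (fun p hp => hp)
    exact h1.comp h2 (fun p hp => ⟨trivial, cc_pos hN hp v, hu p.2 hp v⟩)

/-- the compact domain -/
def KK (x0 : V → ℝ) (T : ℝ) : Set (ℝ × (V → ℝ)) :=
  {p | 0 ≤ p.1 ∧ p.1 ≤ T ∧ ∀ v, x0 v * Real.exp (-(4 * p.1)) ≤ p.2 v ∧
    p.2 v ≤ x0 v * Real.exp (-p.1)}

lemma KK_compact (x0 : V → ℝ) (hx0 : ∀ v, 0 < x0 v) (T : ℝ) : IsCompact (KK x0 T) := by
  have hsub : KK x0 T ⊆ Set.Icc (0:ℝ) T ×ˢ Set.Icc (0 : V → ℝ) x0 := by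
    rintro p ⟨h1, h2, h3⟩
    refine ⟨⟨h1, h2⟩, ?_, ?_⟩
    · intro v
      exact le_trans (mul_nonneg (hx0 v).le (Real.exp_pos _).le) (h3 v).1
    · intro v
      refine le_trans (h3 v).2 ?_
      have : Real.exp (-p.1) ≤ 1 := Real.exp_le_one_iff.mpr (by linarith)
      nlinarith [hx0 v]
  refine IsCompact.of_isClosed_subset (isCompact_Icc.prod isCompact_Icc) ?_ hsub
  have hc1 : Continuous (fun p : ℝ × (V → ℝ) => p.1) := continuous_fst
  have hc2 : ∀ v, Continuous (fun p : ℝ × (V → ℝ) => p.2 v) :=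
    fun v => (continuous_apply v).comp continuous_snd
  have : KK x0 T = {p | 0 ≤ p.1} ∩ ({p | p.1 ≤ T} ∩ ⋂ v,
      ({p : ℝ × (V → ℝ) | x0 v * Real.exp (-(4 * p.1)) ≤ p.2 v} ∩
        {p : ℝ × (V → ℝ) | p.2 v ≤ x0 v * Real.exp (-p.1)})) := by
    ext p
    simp [KK]
  rw [this]
  refine (isClosed_le continuous_const hc1).inter ((isClosed_le hc1 continuous_const).inter
    (isClosed_iInter fun v => ?_))
  refine (isClosed_le ?_ (hc2 v)).inter (isClosed_le (hc2 v) ?_)
  · exact continuous_const.mul (Real.continuous_exp.comp (continuous_const.mul hc1).neg)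
  · exact continuous_const.mul (Real.continuous_exp.comp hc1.neg)

lemma KK_pos {x0 : V → ℝ} (hx0 : ∀ v, 0 < x0 v) {T : ℝ} {p : ℝ × (V → ℝ)} (hp : p ∈ KK x0 T)
    (v : V) : 0 < p.2 v :=
  lt_of_lt_of_le (mul_pos (hx0 v) (Real.exp_pos _)) (hp.2.2 v).1

/-- the abstract theorem -/
theorem mainAbs (hF : ∃ f m, GoodF f m) (hP : ParInt) (hC : ParCont) (hG : GIneq) : MainAbs := by
  intro V _ N u hN hu huc hcov hder x0 hx0
  obtain ⟨f, m, hf⟩ := hF
  -- key estimate
  have key : ∀ T : ℝ, 0 < T → ∀ ε : ℝ, 0 < ε →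
      -(4 * Real.exp (-T) * ∑ v, x0 v) - ε * T ≤ HH N u f 0 x0 := by
    intro T hT ε hε
    have hKc := KK_compact x0 hx0 T
    have hK0 : ((0 : ℝ), x0) ∈ KK x0 T := by
      refine ⟨le_refl _, hT.le, fun v => ?_⟩
      simp
    have hcont : ContinuousOn (fun p : ℝ × (V → ℝ) => HH N u f p.1 p.2 - ε * p.1) (KK x0 T) := by
      apply ContinuousOn.sub
      · exact (HH_cont hC hf hN hu huc).mono (fun p hp => KK_pos hx0 hp)
      · exact (continuous_const.mul continuous_fst).continuousOn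
    obtain ⟨p, hpK, hpmin⟩ := hKc.exists_isMinOn ⟨_, hK0⟩ hcont
    have hp0 := hpmin hK0
    simp only [Set.mem_setOf_eq, mul_zero, sub_zero] at hp0
    obtain ⟨s, x⟩ := p
    have hx : ∀ v, 0 < x v := KK_pos hx0 hpK
    obtain ⟨hs0, hsT, hsx⟩ := hpK
    simp only at hs0 hsT hsx hp0
    -- s = T
    have hsT' : s = T := by
      by_contra hne
      have hlt : s < T := lt_of_le_of_ne hsT hne
      obtain ⟨D, hD, hderiv⟩ := path_deriv hP hG hf hN hu hcov hder hs0 hx
      set ω : V → ℝ := fun v => f s (u x v) with hω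
      have hω1 : ∀ v, 1 ≤ ω v := fun v => hf.lb s _ hs0 (hu x hx v).1 (hu x hx v).2
      have hω4 : ∀ v, ω v ≤ 4 := fun v => hf.ub s _ hs0 (hu x hx v).1 (hu x hx v).2
      have hin : ∀ τ, 0 ≤ τ → τ ≤ T - s → ((s + τ, pth x ω τ) : ℝ × (V → ℝ)) ∈ KK x0 T := by
        intro τ h0 h1
        refine ⟨by simp only; linarith, by simp only; linarith, fun v => ?_⟩
        simp only [pth]
        constructor
        · calc x0 v * Real.exp (-(4 * (s + τ)))
              = x0 v * Real.exp (-(4 * s)) * Real.exp (-(4 * τ)) := by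
                rw [mul_assoc, ← Real.exp_add]; congr 2; ring
            _ ≤ x v * Real.exp (-(4 * τ)) :=
                mul_le_mul_of_nonneg_right (hsx v).1 (Real.exp_pos _).le
            _ ≤ x v * Real.exp (-(ω v * τ)) := by
                apply mul_le_mul_of_nonneg_left _ (hx v).le
                apply Real.exp_le_exp.mpr
                nlinarith [hω4 v]
        · calc x v * Real.exp (-(ω v * τ)) ≤ x v * Real.exp (-τ) := by
                apply mul_le_mul_of_nonneg_left _ (hx v).le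
                apply Real.exp_le_exp.mpr
                nlinarith [hω1 v]
            _ ≤ x0 v * Real.exp (-s) * Real.exp (-τ) :=
                mul_le_mul_of_nonneg_right (hsx v).2 (Real.exp_pos _).le
            _ = x0 v * Real.exp (-(s + τ)) := by
                rw [mul_assoc, ← Real.exp_add]; congr 2; ring
      have hder2 : HasDerivAt
          (fun τ => HH N u f (s + τ) (pth x ω τ) - ε * (s + τ)) (D - ε) 0 := by
        refine hderiv.fun_sub ?_
        have h3 := ((hasDerivAt_id' (0:ℝ)).const_add s).const_mul ε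
        simpa using h3
      have hge : 0 ≤ D - ε := by
        have h4 := hder2.tendsto_slope.mono_left
          (nhdsWithin_mono (0:ℝ) (fun y (hy : y ∈ Set.Ioi (0:ℝ)) => ne_of_gt hy))
        apply ge_of_tendsto h4
        have h5 : ∀ᶠ τ in 𝓝[>] (0:ℝ), τ ∈ Set.Ioc 0 (T - s) :=
          Ioc_mem_nhdsGT (by linarith)
        filter_upwards [h5] with τ hτ
        rw [slope_def_field]
        apply div_nonneg _ (by linarith [hτ.1])
        have h6 := hpmin (hin τ hτ.1.le hτ.2)
        simp only [Set.mem_setOf_eq] at h6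
        rw [pth_zero, add_zero]
        linarith
      linarith
    subst hsT'
    -- lower bound at s = T
    have hlow : -(4 * Real.exp (-s) * ∑ v, x0 v) ≤ HH N u f s x := by
      unfold HH
      rw [Finset.mul_sum, ← Finset.sum_neg_distrib]
      apply Finset.sum_le_sum
      intro v _
      have hc := cc_pos hN hx v
      have huv := hu x hx v
      have h1 : |∫ t in (cc N x v)..(u x v), f s t| ≤ 4 * |u x v - cc N x v| := by
        have := intervalIntegral.norm_integral_le_of_norm_le_const (a := cc N x v) (b := u x v)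
          (f := f s) (C := 4) (fun t ht => by
            have ht' : 0 < t ∧ t < 1 := by
              rcases Set.mem_uIoc.mp ht with h | h
              · exact ⟨lt_trans hc.1 h.1, lt_of_le_of_lt h.2 huv.2⟩
              · exact ⟨lt_trans huv.1 h.1, lt_of_le_of_lt h.2 hc.2⟩
            rw [Real.norm_eq_abs, abs_of_nonneg (le_trans zero_le_one (hf.lb s t hs0 ht'.1 ht'.2))]
            exact hf.ub s t hs0 ht'.1 ht'.2)
        simpa [Real.norm_eq_abs] using this
      have h2 : |u x v - cc N x v| ≤ 1 := by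
        rw [abs_le]; constructor <;> linarith
      have h3 : -4 ≤ ∫ t in (cc N x v)..(u x v), f s t := by
        have := neg_abs_le (∫ t in (cc N x v)..(u x v), f s t)
        linarith
      have h4 := (hsx v).2
      nlinarith [hx v, Real.exp_pos (-s)]
    linarith
  -- conclusion
  have hH0 : HH N u f 0 x0 = ∑ v, x0 v * u x0 v - ∑ v, x0 v / (1 + ∑ w ∈ N v, x0 w) := by
    unfold HH
    rw [← Finset.sum_sub_distrib]
    apply Finset.sum_congr rfl
    intro v _
    have hc := cc_pos hN hx0 v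
    have huv := hu x0 hx0 v
    have h1 : (∫ t in (cc N x0 v)..(u x0 v), f 0 t) = ∫ t in (cc N x0 v)..(u x0 v), (1:ℝ) := by
      apply intervalIntegral.integral_congr
      intro t ht
      have ht' : 0 < t ∧ t < 1 := by
        rcases Set.mem_uIcc.mp ht with h | h
        · exact ⟨lt_of_lt_of_le hc.1 h.1, lt_of_le_of_lt h.2 huv.2⟩
        · exact ⟨lt_of_lt_of_le huv.1 h.1, lt_of_le_of_lt h.2 hc.2⟩
      exact hf.init t ht'.1 ht'.2
    rw [h1]
    simp [cc]
    ring
  have hnn : 0 ≤ HH N u f 0 x0 := by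
    by_contra hneg
    push_neg at hneg
    set A : ℝ := 4 * ∑ v, x0 v with hA
    have hA0 : 0 ≤ A := mul_nonneg (by norm_num) (Finset.sum_nonneg fun v _ => (hx0 v).le)
    have ht : Tendsto (fun T : ℝ => -((A + 1) * Real.exp (-T))) atTop (𝓝 0) := by
      have := (Real.tendsto_exp_neg_atTop_nhds_zero.const_mul (A + 1)).neg
      simpa using this
    have h1 : ∀ᶠ T : ℝ in atTop, -((A + 1) * Real.exp (-T)) ≤ HH N u f 0 x0 := by
      filter_upwards [eventually_gt_atTop (0:ℝ)] with T hT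
      have h2 := key T hT (Real.exp (-T) / T) (div_pos (Real.exp_pos _) hT)
      have h3 : Real.exp (-T) / T * T = Real.exp (-T) := by field_simp
      rw [h3] at h2
      rw [hA]
      linarith
    have h4 := le_of_tendsto ht h1
    linarith
  rw [hH0] at hnn
  linarith

end

end Pool.Agent.W106.CW
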