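import Mathlib

/-!
# MP_dc9350_co (S11853): Caro–Wei bound for the hard-core model.  Statements of project CW.

Proof plan.  For positive activities `x : V → ℝ` let `I` be the hard-core random independent set,
`u v = P(I ∩ N[v] = ∅)`, `c v = 1 / (1 + x(N[v]))`.  The claim is `∑ x v * u v ≥ ∑ x v * c v`.
* `HC` collects the facts about `u` (finite sums): bounds, continuity, the covering inequality
  `1 ≤ u v + ∑_{w ∈ N[v]} x w * u w`, and the derivative inequality along `x z * exp (-(ω z) τ)`.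
* `GoodF f m` is a function `f s c` (with `m = ∂f/∂c`) solving
  `∂f/∂s = c f (2 f - (2 - c) m)`, `f 0 = 1`, convex and nondecreasing in `c`, `1 ≤ f ≤ 4`.
* `MainAbs`: the two together give the claim, by minimising
  `∑ x v * ∫_{c v}^{u v} f s t dt - ε s` over a compact set of `(s, x)`.
-/

set_option autoImplicit false
open Classical

namespace Pool.Agent.W106.CW

section HC
variable {V : Type} [Fintype V]

/-- closed neighbourhood -/
noncomputable def cn (G : SimpleGraph V) (v : V) : Finset V :=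
  Finset.univ.filter (fun w => w = v ∨ G.Adj v w)

/-- independent sets -/
noncomputable def ind (G : SimpleGraph V) : Finset (Finset V) :=
  (Finset.univ : Finset (Finset V)).filter (fun I : Finset V => G.IsIndepSet (↑I : Set V))

/-- vertices whose closed neighbourhood misses `I` -/
noncomputable def free (G : SimpleGraph V) (I : Finset V) : Finset V :=
  Finset.univ.filter (fun v => ∀ w ∈ I, w ∉ cn G v)

/-- weight of a set -/
noncomputable def wt (x : V → ℝ) (I : Finset V) : ℝ := ∏ v ∈ I, x v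

/-- un-normalised expectation -/
noncomputable def ex (G : SimpleGraph V) (x : V → ℝ) (h : Finset V → ℝ) : ℝ :=
  ∑ I ∈ ind G, wt x I * h I

/-- partition function -/
noncomputable def Z (G : SimpleGraph V) (x : V → ℝ) : ℝ := ∑ I ∈ ind G, wt x I

/-- expectation -/
noncomputable def av (G : SimpleGraph V) (x : V → ℝ) (h : Finset V → ℝ) : ℝ :=
  ex G x h / Z G x

/-- probability that `I` misses the closed neighbourhood of `v` -/
noncomputable def uu (G : SimpleGraph V) (x : V → ℝ) (v : V) : ℝ :=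
  av G x (fun I => if v ∈ free G I then 1 else 0)

/-- `ω(I)` -/
noncomputable def sumI (ω : V → ℝ) (I : Finset V) : ℝ := ∑ v ∈ I, ω v

end HC

/-- (SWAP) pairs `v ∈ I` correspond to pairs `v ∈ free I'`, `I' = I \ v`. -/
def Swap : Prop := ∀ (V : Type) [Fintype V] (G : SimpleGraph V) (x : V → ℝ)
    (h : V → Finset V → ℝ),
  ∑ I ∈ ind G, ∑ v ∈ I, wt x I * h v I =
    ∑ I ∈ ind G, ∑ v ∈ free G I, wt x I * (x v * h v (insert v I))

/-- (COVER) bounds and the covering inequality. -/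
def Cover : Prop := ∀ (V : Type) [Fintype V] (G : SimpleGraph V) (x : V → ℝ),
  (∀ v, 0 < x v) → ∀ v, 0 < uu G x v ∧ uu G x v < 1 ∧
    1 ≤ uu G x v + ∑ w ∈ cn G v, x w * uu G x w

/-- (VAR) the covariance inequality. -/
def VarIneq : Prop := ∀ (V : Type) [Fintype V] (G : SimpleGraph V) (x : V → ℝ),
  (∀ v, 0 < x v) → ∀ ω : V → ℝ,
  ∑ v, ω v * x v * (uu G x v * av G x (sumI ω)
      - av G x (fun I => (if v ∈ free G I then 1 else 0) * sumI ω I))
    ≤ ∑ v, x v * uu G x v * (1 - uu G x v) * ω v ^ 2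

/-- (DER) derivative of `uu` along `x z * exp (-(ω z * τ))`, and continuity. -/
def DerU : Prop := ∀ (V : Type) [Fintype V] (G : SimpleGraph V),
  (∀ v, ContinuousOn (fun x : V → ℝ => uu G x v) {x : V → ℝ | ∀ w, 0 < x w}) ∧
  (∀ x : V → ℝ, (∀ v, 0 < x v) → ∀ (ω : V → ℝ) (v : V),
    HasDerivAt (fun τ : ℝ => uu G (fun z => x z * Real.exp (-(ω z * τ))) v)
      (uu G x v * av G x (sumI ω)
        - av G x (fun I => (if v ∈ free G I then 1 else 0) * sumI ω I)) 0)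

/-! ### the function `f` -/

/-- The properties of the auxiliary function. -/
structure GoodF (f m : ℝ → ℝ → ℝ) : Prop where
  init : ∀ c, 0 < c → c < 1 → f 0 c = 1
  lb : ∀ s c, 0 ≤ s → 0 < c → c < 1 → 1 ≤ f s c
  ub : ∀ s c, 0 ≤ s → 0 < c → c < 1 → f s c ≤ 4
  mpos : ∀ s c, 0 ≤ s → 0 < c → c < 1 → 0 ≤ m s c
  mono : ∀ s, 0 ≤ s → MonotoneOn (m s) (Set.Ioo 0 1)
  derc : ∀ s c, 0 < c → c < 1 → HasDerivAt (f s) (m s c) c
  ders : ∀ s c, 0 < c → c < 1 →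
    HasDerivAt (fun r => f r c) (c * f s c * (2 * f s c - (2 - c) * m s c)) s
  contf : ContinuousOn (fun p : ℝ × ℝ => f p.1 p.2) (Set.univ ×ˢ Set.Ioo 0 1)
  contm : ContinuousOn (fun p : ℝ × ℝ => m p.1 p.2) (Set.univ ×ˢ Set.Ioo 0 1)

/-- `Λ(t) = 2 log t - t` -/
noncomputable def Lam (t : ℝ) : ℝ := 2 * Real.log t - t

/-- `g` is the good root of `Λ(g) + (2-g)^2 s = Λ(c)`. -/
def Root (s c g : ℝ) : Prop :=
  0 < g ∧ g < 2 ∧ 2 * s * g < 1 ∧ Lam g + (2 - g) ^ 2 * s = Lam c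

/-- the good root -/
noncomputable def gam (s c : ℝ) : ℝ :=
  if h : ∃ g, Root s c g then Classical.choose h else 1

/-- (F1) existence and uniqueness of the good root, and bounds for `s ≥ 0`. -/
def RootEx : Prop :=
  (∀ s c, 0 < c → c < 1 → ∃ g, Root s c g) ∧
  (∀ s c g g', Root s c g → Root s c g' → g = g') ∧
  (∀ s c g, 0 ≤ s → 0 < c → c < 1 → Root s c g → g ≤ c ∧ g ≤ (2 - g) * (1 - 2 * s * g))

/-- (F2) derivatives and joint continuity of `gam`. -/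
def RootDer : Prop :=
  (ContinuousOn (fun p : ℝ × ℝ => gam p.1 p.2) (Set.univ ×ˢ Set.Ioo 0 1)) ∧
  (∀ s c, 0 < c → c < 1 → HasDerivAt (fun c' => gam s c')
    ((2 - c) * gam s c / (c * (2 - gam s c) * (1 - 2 * s * gam s c))) c) ∧
  (∀ s c, 0 < c → c < 1 → HasDerivAt (fun s' => gam s' c)
    (-(gam s c * (2 - gam s c) / (1 - 2 * s * gam s c))) s)

/-- (F3) the inequality behind convexity. -/
def QIneq : Prop := ∀ s c g : ℝ, 0 ≤ s → 0 < g → g ≤ c → c < 1 → 0 < 1 - 2 * s * g →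
  Lam g + (2 - g) ^ 2 * s = Lam c →
  0 ≤ 3 * (2 - g) ^ 3 * c ^ 2 * (1 - 2 * s * g) ^ 3 - g * (2 - c) ^ 4
    + 2 * g * (2 - g) * (1 - 2 * c) * (2 - c) ^ 2 * (1 - 2 * s * g) ^ 2

/-- the auxiliary function -/
noncomputable def ff (s c : ℝ) : ℝ := ((2 - gam s c) / (2 - c)) ^ 2

/-- its `c`-derivative -/
noncomputable def mm (s c : ℝ) : ℝ :=
  2 * ((2 - gam s c) ^ 2 / (2 - c) ^ 3
    - gam s c / ((1 - 2 * s * gam s c) * (c * (2 - c))))

/-- (F4) -/
def FGood : Prop := GoodF ff mm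

/-! ### analysis lemmas -/

/-- (PAR) derivative of a parametric integral with moving end points. -/
def ParInt : Prop := ∀ (f g : ℝ → ℝ → ℝ),
  (∀ s t, 0 < t → t < 1 → HasDerivAt (fun r => f r t) (g s t) s) →
  ContinuousOn (fun p : ℝ × ℝ => f p.1 p.2) (Set.univ ×ˢ Set.Ioo 0 1) →
  ContinuousOn (fun p : ℝ × ℝ => g p.1 p.2) (Set.univ ×ˢ Set.Ioo 0 1) →
  ∀ (s : ℝ) (a b : ℝ → ℝ) (a' b' : ℝ), HasDerivAt a a' 0 → HasDerivAt b b' 0 →
  0 < a 0 → a 0 < 1 → 0 < b 0 → b 0 < 1 →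
  HasDerivAt (fun τ => ∫ t in (a τ)..(b τ), f (s + τ) t)
    (f s (b 0) * b' - f s (a 0) * a' + ∫ t in (a 0)..(b 0), g s t) 0

/-- (CONT) joint continuity of a parametric integral. -/
def ParCont : Prop := ∀ (f : ℝ → ℝ → ℝ),
  ContinuousOn (fun p : ℝ × ℝ => f p.1 p.2) (Set.univ ×ˢ Set.Ioo 0 1) →
  ContinuousOn (fun p : ℝ × ℝ × ℝ => ∫ t in (p.2.1)..(p.2.2), f p.1 t)
    (Set.univ ×ˢ Set.Ioo 0 1 ×ˢ Set.Ioo 0 1)

/-- (GG) the pointwise inequality. -/
def GIneq : Prop := ∀ (F M : ℝ → ℝ),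
  (∀ c, 0 < c → c < 1 → HasDerivAt F (M c) c) → ContinuousOn M (Set.Ioo 0 1) →
  (∀ c, 0 < c → c < 1 → 0 ≤ F c) → (∀ c, 0 < c → c < 1 → 0 ≤ M c) →
  MonotoneOn M (Set.Ioo 0 1) →
  ∀ u c, 0 < u → u < 1 → 0 < c → c < 1 →
  (∫ t in c..u, t * F t * (2 * F t - (2 - t) * M t)) ≤
    F u * (∫ t in c..u, F t) - u * (1 - u) * F u ^ 2 + c * (1 - c) * F c ^ 2
      - c ^ 2 * F c * M c * (u - c)

/-- (MAIN) the abstract theorem. -/
def MainAbs : Prop := ∀ (V : Type) [Fintype V] (N : V → Finset V)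
  (u : (V → ℝ) → V → ℝ), (∀ v, v ∈ N v) →
  (∀ x : V → ℝ, (∀ v, 0 < x v) → ∀ v, 0 < u x v ∧ u x v < 1) →
  (∀ v, ContinuousOn (fun x : V → ℝ => u x v) {x : V → ℝ | ∀ w, 0 < x w}) →
  (∀ x : V → ℝ, (∀ v, 0 < x v) → ∀ v, 1 ≤ u x v + ∑ w ∈ N v, x w * u x w) →
  (∀ x : V → ℝ, (∀ v, 0 < x v) → ∀ ω : V → ℝ, ∃ ud : V → ℝ,
    (∀ v, HasDerivAt (fun τ : ℝ => u (fun z => x z * Real.exp (-(ω z * τ))) v) (ud v) 0) ∧
    ∑ v, ω v * x v * ud v ≤ ∑ v, x v * u x v * (1 - u x v) * ω v ^ 2) →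
  ∀ x : V → ℝ, (∀ v, 0 < x v) →
    ∑ v, x v / (1 + ∑ w ∈ N v, x w) ≤ ∑ v, x v * u x v

end Pool.Agent.W106.CW
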